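import Pool.Agent.U265.SG.Cnt
import Pool.Agent.N415.PC.Red
import Pool.Agent.N656.PC.Tail
import Pool.Agent.R414.DS.Fin3

/-!
# Counts for all polynomials of degree at most `d` (helper265)

Adapted from the lemmas `zeros` and `bads` of helper821 (`MP_821da1_nt.MultiplicativeCoefficients`); the counts are those of the
starting libraries `R414.DN`, `R414.DS`, `N415.PC`, `N656.PC`.
-/

set_option autoImplicit false

namespace Pool.Agent.U265.SG

open Finset Polynomial Pool.Agent.R414.DN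

variable {d : ℕ}

/-- The exponent of the power saving: `1` for `d ≥ 6`, and `1 / (2 (9 d ^ 2 + 24 d + 9))` for `d = 4, 5`. -/
noncomputable def saving (d : ℕ) : ℝ := if 6 ≤ d then 1 else 1 / (2 * (9 * (d : ℝ) ^ 2 + 24 * d + 9))

lemma saving_le (d : ℕ) : saving d ≤ 1 := by
  unfold saving
  split_ifs
  · exact le_rfl
  · rw [div_le_one (by positivity)]
    have : (0 : ℝ) ≤ d := Nat.cast_nonneg _
    nlinarith [sq_nonneg (d : ℝ)]

/-- the polynomials with an integer zero -/
theorem few_zeros (hd : 4 ≤ d) :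
    Few {a : Cf d | ∃ x y : ℤ, MvPolynomial.eval ![x, y] (poly a) = 0} ((MM d : ℝ) - saving d) := by
  classical
  have hsub : ∀ X : ℕ, ∀ T : Finset (Cf d), (∀ a ∈ T, a ∈ {a : Cf d | ∃ x y : ℤ,
      MvPolynomial.eval ![x, y] (poly a) = 0} ∧ ∀ i, |a i| ≤ X) → T ⊆ zS d X := by
    intro X T hT a ha
    obtain ⟨⟨x, y, h⟩, h2⟩ := hT a ha
    rw [mem_zS]
    exact ⟨mem_ibox.2 h2, x, y, by rw [← eval_poly]; exact h⟩
  by_cases h6 : 6 ≤ d
  · obtain ⟨C, hC0, hC⟩ := Pool.Agent.R414.DS.card_zS_sharp h6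
    refine ⟨C * 3 ^ (MM d - 1), fun X hX T hT => ?_⟩
    have h1 : (T.card : ℝ) ≤ ((zS d X).card : ℝ) := by exact_mod_cast card_le_card (hsub X T hT)
    have e1 : ((X : ℕ) : ℝ) ^ ((MM d : ℝ) - saving d) = (X : ℝ) ^ (MM d - 1) := by
      rw [saving, if_pos h6, ← Real.rpow_natCast, Nat.cast_sub (by have := MM_pos d; omega : 1 ≤ MM d),
        Nat.cast_one]
    rw [e1, mul_assoc]
    refine (h1.trans (hC X hX)).trans (mul_le_mul_of_nonneg_left (pow_three hX) hC0)
  · obtain ⟨C, hC⟩ := main_box hd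
    refine ⟨C, fun X hX T hT => ?_⟩
    have h1 : (T.card : ℝ) ≤ ((zS d X).card : ℝ) := by exact_mod_cast card_le_card (hsub X T hT)
    have he : ((MM d : ℝ) - saving d) = ((MM d : ℝ) - 1 / (2 * mE d)) := by
      rw [saving, if_neg h6]
      unfold mE
      push_cast
      congr 2
      ring
    rw [he]
    exact h1.trans (hC X hX)

/-- the polynomials which are not of degree `d`, or reducible, or have an integer zero beyond the bound -/
theorem few_bads (hd : 5 ≤ d) {G N : ℕ} (hL : LargeC d G N) :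
    Few {a : Cf d | ¬ ((poly a).totalDegree = d ∧ Irreducible (MvPolynomial.map (Int.castRingHom ℚ) (poly a)) ∧
      ∀ x y : ℤ, MvPolynomial.eval ![x, y] (poly a) = 0 →
        max x.natAbs y.natAbs ≤ ((d + 1) * Pool.Agent.H322R2.len (poly a)) ^ G)} ((MM d : ℝ) - 2) := by
  classical
  obtain ⟨CR, hCR0, hRed⟩ := Pool.Agent.N415.PC.t_RED d (by omega)
  obtain ⟨C1, hC1⟩ : ∃ C1 : ℝ, C1 = 1 + (4 * d * (d + 1) ^ 2 * 9 ^ d * cS d ^ (d - 1)) + d + N := ⟨_, rfl⟩
  have hC1' : 0 ≤ C1 := by rw [hC1]; positivity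
  have hM : 2 ≤ MM d := by
    have := (MM_exps hd).1
    omega
  refine ⟨(C1 + CR + 1) * 3 ^ (MM d - 2), fun X hX T hT => ?_⟩
  have hX1 : (1 : ℝ) ≤ X := by exact_mod_cast hX
  have e1 : (X : ℝ) ^ ((MM d : ℝ) - 2) = (X : ℝ) ^ (MM d - 2) := by
    rw [← Real.rpow_natCast, Nat.cast_sub hM, Nat.cast_ofNat]
  rw [e1]
  obtain ⟨S1, hS1⟩ : ∃ S1, S1 = (ibox ↥(I d) X).filter fun a => ∀ i, co a d i = 0 := ⟨_, rfl⟩
  obtain ⟨S2, hS2⟩ : ∃ S2, S2 = (ibox ↥(I d) X).filter fun a => (∃ i, co a d i ≠ 0) ∧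
    ¬ Irreducible (MvPolynomial.map (Int.castRingHom ℚ) (poly a)) := ⟨_, rfl⟩
  have hsub : T ⊆ excS d X G ∪ (S1 ∪ S2) := by
    intro a ha
    obtain ⟨h3, h4⟩ := hT a ha
    have hbox := mem_ibox.2 h4
    rw [mem_union, mem_union]
    by_cases c1 : ∀ i, co a d i = 0
    · right; left
      rw [hS1, mem_filter]
      exact ⟨hbox, c1⟩
    by_cases c2 : Irreducible (MvPolynomial.map (Int.castRingHom ℚ) (poly a))
    · left
      rw [mem_excS]
      refine ⟨hbox, c2, ?_⟩
      have hdeg : (poly a).totalDegree = d := by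
        push Not at c1
        obtain ⟨i, hi⟩ := c1
        have hmem : (d, i) ∈ I d := by
          by_contra h
          apply hi
          unfold co
          rw [dif_neg h]
        have hi2 := (mem_I.1 hmem).2
        refine le_antisymm (totalDegree_poly_le a) ?_
        have h4 : (Finsupp.single (0 : Fin 2) i + Finsupp.single 1 (d - i) : Fin 2 →₀ ℕ) ∈ (poly a).support := by
          rw [MvPolynomial.mem_support_iff, coeff_poly]
          simp only [Finsupp.add_apply, Finsupp.single_apply]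
          simp only [if_true, Fin.one_eq_zero_iff, Fin.zero_eq_one_iff]
          norm_num
          simp only at hi2
          rw [Nat.add_sub_cancel' hi2]
          exact hi
        have h5 := MvPolynomial.le_totalDegree h4
        rw [Finsupp.sum_fintype _ _ (by intro i; rfl), Fin.sum_univ_two] at h5
        simp at h5
        simp only at hi2
        omega
      by_contra h5
      apply h3
      refine ⟨hdeg, c2, fun x y hxy => ?_⟩
      by_contra h6
      exact h5 ⟨x, y, by rw [← eval_poly]; exact hxy, not_le.1 h6⟩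
    · right; right
      rw [hS2, mem_filter]
      push Not at c1
      exact ⟨hbox, c1, c2⟩
  have h2 := (card_le_card hsub).trans ((card_union_le _ _).trans (Nat.add_le_add_left (card_union_le _ _) _))
  have h2' : (T.card : ℝ) ≤ ((excS d X G).card : ℝ) + ((S1.card : ℝ) + (S2.card : ℝ)) := by exact_mod_cast h2
  have b0 := card_excS hL hd hX
  rw [← hC1] at b0
  have b1 : (S1.card : ℝ) ≤ (2 * (X : ℝ) + 1) ^ (MM d - 2) := by
    have h1 := Pool.Agent.N656.PC.card_zero_form S1 (by rw [hS1]; exact filter_subset _ _)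
      (by intro a ha; rw [hS1] at ha; exact (mem_filter.1 ha).2)
    have h2 : (S1.card : ℝ) ≤ (2 * (X : ℝ) + 1) ^ (MM d - (d + 1)) := by exact_mod_cast h1
    exact h2.trans (pow_le_pow_right₀ (by linarith) (by omega))
  have b2 : (S2.card : ℝ) ≤ CR * (2 * (X : ℝ) + 1) ^ (MM d - 2) :=
    hRed X hX S2 (by rw [hS2]; exact filter_subset _ _)
      (by intro a ha; rw [hS2] at ha; exact (mem_filter.1 ha).2)
  have h3 := pow_three (n := MM d - 2) hX
  calc (T.card : ℝ) ≤ C1 * (2 * (X : ℝ) + 1) ^ (MM d - 2) + ((2 * (X : ℝ) + 1) ^ (MM d - 2) +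
        CR * (2 * (X : ℝ) + 1) ^ (MM d - 2)) := by linarith
    _ = (C1 + CR + 1) * (2 * (X : ℝ) + 1) ^ (MM d - 2) := by ring
    _ ≤ (C1 + CR + 1) * (3 ^ (MM d - 2) * (X : ℝ) ^ (MM d - 2)) := mul_le_mul_of_nonneg_left h3 (by linarith)
    _ = _ := by ring

end Pool.Agent.U265.SG
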