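import Pool.Agent.U265.SG.Gn
import Pool.Agent.R414.DN.Exf

/-!
# Counting the integral polynomials in two variables which are exceptional for the explicit bound (helper265)

The counts are those of the starting library `Pool.Agent.R414.DN`, here for the three leading forms alone.
-/

set_option autoImplicit false

namespace Pool.Agent.U265.SG

open Finset Polynomial Pool.Agent.R414.DN

variable {d : ℕ}

/-- the monomials of the three leading forms -/
abbrev J (d : ℕ) : Type := {p : ↥(I d) // d < p.1.1 + 3}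

/-- the three leading forms, extended by zero -/
def ext (b : J d → ℤ) : Cf d := fun p => if h : d < p.1.1 + 3 then b ⟨p, h⟩ else 0

/-- the three leading forms -/
def res {α : Type} (a : ↥(I d) → α) : J d → α := fun p => a p.1

/-- the same three leading forms -/
def Same (a a' : Cf d) : Prop := ∀ k i, d < k + 3 → co a k i = co a' k i

lemma same_symm {a a' : Cf d} (h : Same a a') : Same a' a := fun k i hk => (h k i hk).symm

lemma same_ext_res (a : Cf d) : Same (ext (res a)) a := by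
  intro k i hk
  unfold co
  by_cases hm : (k, i) ∈ I d
  · rw [dif_pos hm, dif_pos hm]
    unfold ext
    rw [dif_pos (show d < ((⟨(k, i), hm⟩ : ↥(I d)) : ℕ × ℕ).1 + 3 from hk)]
    rfl
  · rw [dif_neg hm, dif_neg hm]

/-- leading forms and lower coefficients -/
def glue (q : (J d → ℤ) × ({p : ↥(I d) // ¬ d < p.1.1 + 3} → ℤ)) : Cf d := fun p =>
  if h : d < p.1.1 + 3 then q.1 ⟨p, h⟩ else q.2 ⟨p, h⟩

lemma glue_inj : Function.Injective (glue (d := d)) := by
  rintro ⟨b, c⟩ ⟨b', c'⟩ h
  rw [Prod.mk.injEq]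
  constructor
  · funext p
    have h1 := congrFun h p.1
    unfold glue at h1
    simp only [p.2, dif_pos] at h1
    exact h1
  · funext p
    have h1 := congrFun h p.1
    unfold glue at h1
    simp only [p.2, dif_neg, not_false_eq_true] at h1
    exact h1

lemma same_glue (b : J d → ℤ) (c : {p : ↥(I d) // ¬ d < p.1.1 + 3} → ℤ) : Same (ext b) (glue (b, c)) := by
  intro k i hk
  unfold co
  by_cases hm : (k, i) ∈ I d
  · rw [dif_pos hm, dif_pos hm]
    unfold ext glue
    rw [dif_pos (show d < ((⟨(k, i), hm⟩ : ↥(I d)) : ℕ × ℕ).1 + 3 from hk),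
      dif_pos (show d < ((⟨(k, i), hm⟩ : ↥(I d)) : ℕ × ℕ).1 + 3 from hk)]
  · rw [dif_neg hm, dif_neg hm]

lemma card_split (hd : 3 ≤ d) : Fintype.card (J d) = 3 * d ∧
    MM d = Fintype.card {p : ↥(I d) // ¬ d < p.1.1 + 3} + 3 * d := by
  classical
  have h1 : Fintype.card {p : ↥(I d) // ¬ d < p.1.1 + 3} = (I (d - 3)).card := by
    rw [← Fintype.card_coe]
    refine Fintype.card_congr
      { toFun := fun p => ⟨p.1.1, by
          have := mem_I.1 p.1.2
          have := p.2
          rw [mem_I]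
          omega⟩
        invFun := fun q => ⟨⟨q.1, by
          have := mem_I.1 q.2
          rw [mem_I]
          omega⟩, by
          have := mem_I.1 q.2
          simp only
          omega⟩
        left_inv := fun p => rfl
        right_inv := fun q => rfl }
  have h2 := card_I d
  have h3 := card_I (d - 3)
  have h4 := Fintype.card_subtype_compl (fun p : ↥(I d) => d < p.1.1 + 3)
  have h5 := Fintype.card_subtype_le (fun p : ↥(I d) => d < p.1.1 + 3)
  have h6 : Fintype.card ↥(I d) = (I d).card := Fintype.card_coe _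
  have h7 : MM d = Fintype.card ↥(I d) := rfl
  obtain ⟨e, rfl⟩ : ∃ e, d = e + 3 := ⟨d - 3, by omega⟩
  have e1 : e + 3 - 3 = e := by omega
  rw [e1] at h3 h1
  have e2 : (e + 3 + 1) * (e + 3 + 2) = (e + 1) * (e + 2) + 6 * e + 18 := by ring
  rw [e2] at h2
  obtain ⟨z, hz⟩ : ∃ z, z = (e + 1) * (e + 2) := ⟨_, rfl⟩
  rw [← hz] at h2 h3
  have h8 : Fintype.card (J (e + 3)) = Fintype.card {p : ↥(I (e + 3)) // e + 3 < p.1.1 + 3} := by
    congr 1
  rw [h8]
  constructor
  · omega
  · omega

lemma pow_three {X n : ℕ} (hX : 1 ≤ X) : (2 * (X : ℝ) + 1) ^ n ≤ 3 ^ n * (X : ℝ) ^ n := by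
  have hX' : (1 : ℝ) ≤ X := by exact_mod_cast hX
  rw [← mul_pow]
  exact pow_le_pow_left₀ (by linarith) (by linarith) _

/-- **From the polynomials to their three leading forms.** -/
lemma few_ext (hd : 3 ≤ d) (P : Cf d → Prop) (hP : ∀ a a', Same a a' → P a → P a') {c : ℕ} (hc : c ≤ 3 * d)
    {K : ℝ} (hK : 0 ≤ K) (hcount : ∀ H : ℕ, 1 ≤ H → ∀ S : Finset (Cf d), S ⊆ ibox ↥(I d) H → (∀ a ∈ S, P a) →
      (S.card : ℝ) ≤ K * (2 * (H : ℝ) + 1) ^ (MM d - c)) :
    Few {b : J d → ℤ | P (ext b)} ((3 * d : ℝ) - c) := by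
  classical
  refine ⟨K * 3 ^ (3 * d - c), fun X hX T hT => ?_⟩
  obtain ⟨-, hM⟩ := card_split hd
  obtain ⟨l, hl⟩ : ∃ l, l = Fintype.card {p : ↥(I d) // ¬ d < p.1.1 + 3} := ⟨_, rfl⟩
  rw [← hl] at hM
  have h1 := hcount X hX ((T ×ˢ ibox {p : ↥(I d) // ¬ d < p.1.1 + 3} X).image glue) (by
    intro a ha
    rw [mem_image] at ha
    obtain ⟨⟨b, c⟩, hbc, rfl⟩ := ha
    rw [mem_product] at hbc
    rw [mem_ibox]
    intro p
    unfold glue
    split_ifs with h
    · exact (hT b hbc.1).2 _
    · exact mem_ibox.1 hbc.2 _) (by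
    intro a ha
    rw [mem_image] at ha
    obtain ⟨⟨b, c⟩, hbc, rfl⟩ := ha
    rw [mem_product] at hbc
    exact hP _ _ (same_glue b c) (hT b hbc.1).1)
  rw [card_image_of_injective _ glue_inj, card_product, card_ibox, ← hl] at h1
  have e1 : MM d - c = (3 * d - c) + l := by omega
  rw [e1, pow_add, ← mul_assoc] at h1
  push_cast at h1
  have h2 := le_of_mul_le_mul_right h1 (by positivity)
  have e2 : ((X : ℕ) : ℝ) ^ ((3 * d : ℝ) - c) = (X : ℝ) ^ (3 * d - c) := by
    rw [← Real.rpow_natCast, Nat.cast_sub hc]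
    push_cast
    rfl
  rw [e2]
  refine h2.trans ?_
  rw [mul_assoc]
  exact mul_le_mul_of_nonneg_left (pow_three hX) hK

lemma few_union {ι : Type} [Fintype ι] {A B : Set (ι → ℤ)} {s : ℝ} (hA : Few A s) (hB : Few B s) :
    Few (A ∪ B) s := by
  classical
  obtain ⟨K, hK⟩ := hA
  obtain ⟨K', hK'⟩ := hB
  refine ⟨K + K', fun X hX T hT => ?_⟩
  have h1 := hK X hX (T.filter fun a => a ∈ A) (fun a ha => by
    rw [mem_filter] at ha
    exact ⟨ha.2, (hT a ha.1).2⟩)
  have h2 := hK' X hX (T.filter fun a => ¬ a ∈ A) (fun a ha => by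
    rw [mem_filter] at ha
    refine ⟨?_, (hT a ha.1).2⟩
    rcases (hT a ha.1).1 with h | h
    · exact absurd h ha.2
    · exact h)
  have h3 : (T.card : ℝ) = ((T.filter fun a => a ∈ A).card : ℝ) + ((T.filter fun a => ¬ a ∈ A).card : ℝ) := by
    rw [← Nat.cast_add, card_filter_add_card_filter_not]
  rw [h3, add_mul]
  exact add_le_add h1 h2

lemma few_mono {ι : Type} [Fintype ι] {A : Set (ι → ℤ)} {s s' : ℝ} (hA : Few A s) (h : s ≤ s') : Few A s' := by
  obtain ⟨K, hK⟩ := hA
  refine ⟨max K 0, fun X hX T hT => (hK X hX T hT).trans ?_⟩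
  have hX1 : (1 : ℝ) ≤ X := by exact_mod_cast hX
  exact mul_le_mul (le_max_left _ _) (Real.rpow_le_rpow_of_exponent_le hX1 h)
    (Real.rpow_nonneg (by linarith) _) (le_max_right _ _)

/-- the two highest coefficients of the leading form are zero -/
def P1 (a : Cf d) : Prop := co a d d = 0 ∧ co a d (d - 1) = 0

/-- the leading form is not squarefree -/
def P2 (a : Cf d) : Prop := (co a d d ≠ 0 ∨ co a d (d - 1) ≠ 0) ∧
  ¬ Squarefree ((pl d (topRow a)).map (Int.castRingHom ℚ))

/-- an asymptote with too high contact -/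
def P3 (a : Cf d) : Prop := Lead a ∧ ∃ t u : ℝ, TT (co a) d 0 t = 0 ∧
  TT (co a) (d - 1) 0 t + TT (co a) d 1 t * u = 0 ∧
  TT (co a) (d - 2) 0 t + TT (co a) (d - 1) 1 t * u + TT (co a) d 2 t * u ^ 2 = 0

lemma same_topRow {a a' : Cf d} (h : Same a a') : topRow a = topRow a' := by
  funext j
  exact h d j (by omega)

lemma same_P1 (a a' : Cf d) (h : Same a a') (h1 : P1 a) : P1 a' := by
  unfold P1 at h1 ⊢
  rw [← h d d (by omega), ← h d (d - 1) (by omega)]
  exact h1

lemma same_P2 (a a' : Cf d) (h : Same a a') (h1 : P2 a) : P2 a' := by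
  unfold P2 at h1 ⊢
  rw [← h d d (by omega), ← h d (d - 1) (by omega), ← same_topRow h]
  exact h1

lemma same_Lead (a a' : Cf d) (h : Same a a') (h1 : Lead a) : Lead a' := by
  unfold Lead at h1 ⊢
  rw [← h d d (by omega), ← same_topRow h]
  exact h1

lemma same_TT {a a' : Cf d} (h : Same a a') {k : ℕ} (hk : d < k + 3) (i : ℕ) (t : ℝ) :
    TT (co a) k i t = TT (co a') k i t := by
  unfold TT
  refine sum_congr rfl fun j _ => ?_
  rw [h k j hk]

lemma same_P3 (hd : 3 ≤ d) (a a' : Cf d) (h : Same a a') (h1 : P3 a) : P3 a' := by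
  obtain ⟨hL, t, u, e1, e2, e3⟩ := h1
  refine ⟨same_Lead a a' h hL, t, u, ?_, ?_, ?_⟩
  · rw [← same_TT h (by omega)]
    exact e1
  · rw [← same_TT h (by omega), ← same_TT h (by omega)]
    exact e2
  · rw [← same_TT h (by omega), ← same_TT h (by omega), ← same_TT h (by omega)]
    exact e3

lemma P3_lines (hd : 3 ≤ d) {a : Cf d} (h : P3 a) : ¬ LinesC a := by
  obtain ⟨-, t, u, e1, e2, e3⟩ := h
  intro hl
  have h1 := hl ![u, 0] ![t, 1] (by
    intro h0
    have := congrFun h0 1
    simp at this)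
  have h2 : MvPolynomial.aeval (fun i => (C (![u, 0] i) + C (![t, 1] i) * X : ℝ[X])) (poly a) =
      FR (co a) d (C t * X + C u) (X : ℝ[X]) := by
    rw [aeval_poly]
    have g0 : (C (![u, 0] 0) + C (![t, 1] 0) * X : ℝ[X]) = C t * X + C u := by
      simp [add_comm]
    have g1 : (C (![u, 0] 1) + C (![t, 1] 1) * X : ℝ[X]) = X := by
      simp
    rw [g0, g1]
    rfl
  rw [h2] at h1
  obtain ⟨g1, g2, g3⟩ := line_coeffs (c := co a) (by omega : 2 ≤ d) t u
  rw [e1] at g1
  rw [e2] at g2
  rw [e3] at g3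
  have h3 : (FR (co a) d (C t * X + C u) (X : ℝ[X])).natDegree ≤ d - 3 := by
    rw [natDegree_le_iff_coeff_eq_zero]
    intro N hN
    rcases Nat.lt_or_ge d N with h | h
    · unfold FR
      rw [finsetSum_coeff]
      apply sum_eq_zero
      intro k hk
      rw [mem_range] at hk
      rw [coef_row, if_neg (by omega)]
    · have : N = d ∨ N = d - 1 ∨ N = d - 2 := by omega
      rcases this with rfl | rfl | rfl
      · exact g1
      · exact g2
      · exact g3
  omega

/-- the exceptional leading forms (codimension two) -/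
def B3 (d : ℕ) : Set (J d → ℤ) := {b | P1 (ext b)} ∪ ({b | P2 (ext b)} ∪ {b | P3 (ext b)})

/-- the leading forms which are exceptional or reducible (codimension one) -/
def B3' (d : ℕ) : Set (J d → ℤ) := B3 d ∪ {b | ¬ Lead (ext b)}

theorem few_B3 (hd : 4 ≤ d) : Few (B3 d) ((3 * d : ℝ) - (2 : ℕ)) := by
  classical
  refine few_union ?_ (few_union ?_ ?_)
  · refine few_ext (by omega) P1 same_P1 (c := 2) (by omega) (K := 1) zero_le_one ?_
    intro H _ S hS h
    rw [one_mul]
    exact_mod_cast card_E1 (by omega) S hS h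
  · refine few_ext (by omega) P2 same_P2 (c := 2) (by omega)
      (K := (4 * d * (d + 1) ^ 2 * 9 ^ d * cS d ^ (d - 1))) (by positivity) ?_
    intro H hH S hS h
    exact card_E2 hd hH S hS h
  · refine few_ext (by omega) P3 (same_P3 (by omega)) (c := 2) (by omega) (K := d) (by positivity) ?_
    intro H hH S hS h
    have h1 := card_E3 hd S hS (fun a ha => ⟨(h a ha).1, P3_lines (by omega) (h a ha)⟩)
    have h2 : S.card ≤ d * (2 * H + 1) ^ (MM d - 2) :=
      h1.trans (Nat.mul_le_mul_left _ (Nat.pow_le_pow_right (by omega) (by omega)))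
    exact_mod_cast h2

theorem few_B3' (hd : 4 ≤ d) : Few (B3' d) ((3 * d : ℝ) - (1 : ℕ)) := by
  classical
  refine few_union (few_mono (few_B3 hd) (by push_cast; linarith)) ?_
  refine few_ext (by omega) (fun a => ¬ Lead a) (fun a a' h h1 h2 => h1 (same_Lead a' a (same_symm h) h2))
    (c := 1) (by omega) (K := (1 + 4 * d * (d + 1) * 3 ^ d * (3 * cR d) ^ d)) (by positivity) ?_
  intro H hH S hS h
  exact card_notLead hd hH S hS h

/-- the irreducible polynomials with a large integer zero whose leading forms are not exceptional -/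
def BB (d G : ℕ) : Set (Cf d) := {a | Irreducible (MvPolynomial.map (Int.castRingHom ℚ) (poly a)) ∧
  (∃ x y : ℤ, MvPolynomial.eval ![x, y] (poly a) = 0 ∧
    ((d + 1) * Pool.Agent.H322R2.len (poly a)) ^ G < max x.natAbs y.natAbs) ∧ res a ∉ B3 d}

theorem few_BB (hd : 4 ≤ d) {G N : ℕ} (hL : LargeC d G N) : Few (BB d G) ((4 * d : ℝ) - (2 : ℕ)) := by
  classical
  refine ⟨N * 3 ^ (4 * d - 2), fun X hX T hT => ?_⟩
  have h1 := hL X T (fun a ha => mem_ibox.2 (hT a ha).2) (by
    intro a ha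
    obtain ⟨⟨hirr, ⟨x, y, hxy, hb⟩, hres⟩, -⟩ := hT a ha
    have hS := same_symm (same_ext_res a)
    have n1 : ¬ P1 a := fun h => hres (Or.inl (same_P1 _ _ hS h))
    have n2 : ¬ P2 a := fun h => hres (Or.inr (Or.inl (same_P2 _ _ hS h)))
    have n3 : ¬ P3 a := fun h => hres (Or.inr (Or.inr (same_P3 (by omega) _ _ hS h)))
    have h1' : co a d d ≠ 0 ∨ co a d (d - 1) ≠ 0 := by
      by_contra h
      push Not at h
      exact n1 h
    have h2' : Squarefree ((pl d (topRow a)).map (Int.castRingHom ℚ)) := by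
      by_contra h
      exact n2 ⟨h1', h⟩
    have h3 := squarefree_LF h1' h2'
    refine ⟨h3.ne_zero, h3, ?_, hirr, x, y, ?_, hb⟩
    · intro h5
      by_contra h6
      have hLd := lead_of_irr (by omega) h5
      exact n3 ⟨hLd, lines_fail (by omega) hLd h6⟩
    · rw [← eval_poly]
      exact hxy)
  have h2 : (T.card : ℝ) ≤ N * (2 * (X : ℝ) + 1) ^ (4 * d - 2) := by exact_mod_cast h1
  have e2 : ((X : ℕ) : ℝ) ^ ((4 * d : ℝ) - (2 : ℕ)) = (X : ℝ) ^ (4 * d - 2) := by
    rw [← Real.rpow_natCast, Nat.cast_sub (by omega)]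
    push_cast
    rfl
  rw [e2, mul_assoc]
  exact h2.trans (mul_le_mul_of_nonneg_left (pow_three hX) (Nat.cast_nonneg _))

/-- an irreducible leading form -/
lemma good_of_lead (hd : 1 ≤ d) {a : Cf d} (h : Lead a) : (poly a).totalDegree = d ∧
    Irreducible (MvPolynomial.map (Int.castRingHom ℚ) (poly a)) := by
  refine ⟨totalDegree_poly h.1, ?_⟩
  have hdeg : (MvPolynomial.map (Int.castRingHom ℚ) (poly a)).totalDegree = d := by
    refine Eq.trans ?_ (totalDegree_poly h.1)
    unfold MvPolynomial.totalDegree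
    rw [MvPolynomial.support_map_of_injective _ (RingHom.injective_int _)]
  apply Pool.Agent.H322R2.irr_of_lead
  · rw [hdeg]
    exact hd
  · rw [hdeg, hc_map]
    exact irr_poly hd h

end Pool.Agent.U265.SG
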