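import Pool.Agent.U265.GM.Gen

/-!
# Metric laws for sparse sets of integral vectors: all finite index types and linear subspaces (helper265)
-/

set_option autoImplicit false

namespace Pool.Agent.U265.SG

open Finset Filter Topology MeasureTheory Pool.Agent.U265.GM
open scoped ENNReal NNReal

variable {ι : Type} [Fintype ι]

/-- at most `K X ^ s` elements up to `X` -/
def Few (B : Set (ι → ℤ)) (s : ℝ) : Prop := ∃ K : ℝ, ∀ X : ℕ, 1 ≤ X → ∀ T : Finset (ι → ℤ),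
  (∀ a ∈ T, a ∈ B ∧ ∀ i, |a i| ≤ X) → (T.card : ℝ) ≤ K * (X : ℝ) ^ s

/-- infinitely many vectors of `B` near the `w_n v` -/
def HitI (B : Set (ι → ℤ)) (κ : ℝ) (w : ℕ → ℝ) (v : ι → ℝ) : Prop :=
  ∃ᶠ n : ℕ in atTop, ∃ a ∈ B, ∀ i, |(a i : ℝ) - w n * v i| ≤ w n ^ κ

theorem dim_hit (B : Set (ι → ℤ)) {s κ τ : ℝ} (hs : 0 ≤ s) (hB : Few B s) (hκ : κ < 1) (hτ : 0 ≤ τ)
    (w : ℕ → ℝ) (hw : ∀ n, 1 ≤ w n) (hsum : ∀ t : ℝ, τ < t → Summable fun n => w n ^ (-t)) :
    dimH {v : ι → ℝ | HitI B κ w v} ≤ ENNReal.ofReal ((s + τ) / (1 - κ)) := by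
  classical
  obtain ⟨k, ⟨e⟩⟩ : ∃ k, Nonempty (ι ≃ Fin k) := ⟨_, ⟨Fintype.equivFin ι⟩⟩
  have hiso : Isometry (fun (v : ι → ℝ) (j : Fin k) => v (e.symm j)) := by
    refine Isometry.of_nndist_eq fun a b => ?_
    rw [nndist_pi_def, nndist_pi_def]
    apply le_antisymm
    · exact Finset.sup_le fun j _ => Finset.le_sup (f := fun i => nndist (a i) (b i)) (mem_univ (e.symm j))
    · refine Finset.sup_le fun i _ => ?_
      have h := Finset.le_sup (f := fun j => nndist (a (e.symm j)) (b (e.symm j))) (mem_univ (e i))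
      simpa using h
  have hB' : Sparse {m : Fin k → ℤ | (fun i => m (e i)) ∈ B} s := by
    obtain ⟨K, hK⟩ := hB
    refine fun ε hε => ⟨max K 0, fun X hX T hT => ?_⟩
    have h1 := hK X hX (T.image fun m i => m (e i)) (by
      intro a ha
      rw [mem_image] at ha
      obtain ⟨m, hm, rfl⟩ := ha
      exact ⟨(hT m hm).1, fun i => (hT m hm).2 _⟩)
    rw [card_image_of_injective] at h1
    · refine h1.trans ?_
      have hX1 : (1 : ℝ) ≤ X := by exact_mod_cast hX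
      refine mul_le_mul (le_max_left _ _) (Real.rpow_le_rpow_of_exponent_le hX1 (by linarith))
        (Real.rpow_nonneg (by linarith) _) (le_max_right _ _)
    · intro m m' h
      funext j
      have := congrFun h (e.symm j)
      simpa using this
  rw [← hiso.dimH_image]
  refine (dimH_mono ?_).trans (gen_dil _ hs hB' hκ hτ w hw hsum)
  rintro _ ⟨v, hv, rfl⟩
  refine Frequently.mono hv ?_
  rintro n ⟨a, ha, h⟩
  refine ⟨fun j => a (e.symm j), fun j => h _, ?_⟩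
  simpa using ha

theorem null_of_dim {E : Type} [NormedAddCommGroup E] [NormedSpace ℝ E] [FiniteDimensional ℝ E] [MeasurableSpace E]
    [BorelSpace E] (μ : Measure E) [μ.IsAddHaarMeasure] {S : Set E} {D : ℝ} (hS : dimH S ≤ ENNReal.ofReal D)
    (hD0 : 0 ≤ D) (hD : D < Module.finrank ℝ E) : μ S = 0 := by
  have h0 : (0 : ℝ) < (Module.finrank ℝ E : ℝ) := lt_of_le_of_lt hD0 hD
  have h1 : μ ≪ μH[((Module.finrank ℝ E : ℝ≥0) : ℝ)] := by
    rw [NNReal.coe_natCast]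
    exact Measure.absolutelyContinuous_isAddHaarMeasure _ _
  refine measure_zero_of_dimH_lt h1 (lt_of_le_of_lt hS ?_)
  rw [← ENNReal.ofReal_coe_nnreal, NNReal.coe_natCast]
  exact (ENNReal.ofReal_lt_ofReal_iff h0).2 hD

theorem ae_sub (B : Set (ι → ℤ)) {s κ τ : ℝ} (hs : 0 ≤ s) (hB : Few B s) (hκ : κ < 1) (hτ : 0 ≤ τ)
    (w : ℕ → ℝ) (hw : ∀ n, 1 ≤ w n) (hsum : ∀ t : ℝ, τ < t → Summable fun n => w n ^ (-t))
    (V : Submodule ℝ (ι → ℝ)) (hV : s + τ < (1 - κ) * Module.finrank ℝ V) :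
    ∀ᵐ v : V ∂(Measure.addHaar : Measure V), ¬ HitI B κ w (v : ι → ℝ) := by
  have hκ' : 0 < 1 - κ := by linarith
  rw [ae_iff]
  simp only [not_not]
  refine null_of_dim (D := (s + τ) / (1 - κ)) _ ?_ (div_nonneg (by linarith) hκ'.le) ?_
  · have h1 : Isometry (Subtype.val : V → (ι → ℝ)) := isometry_subtype_coe
    rw [← h1.dimH_image]
    refine (dimH_mono ?_).trans (dim_hit B hs hB hκ hτ w hw hsum)
    rintro _ ⟨v, hv, rfl⟩
    exact hv
  · rw [div_lt_iff₀ hκ']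
    linarith

theorem ae_proj {J : Type} [Fintype J] (f : J → ι) (B : Set (J → ℤ)) {s κ τ : ℝ} (hs : 0 ≤ s) (hB : Few B s)
    (hκ : κ < 1) (hτ : 0 ≤ τ) (w : ℕ → ℝ) (hw : ∀ n, 1 ≤ w n) (hsum : ∀ t : ℝ, τ < t → Summable fun n => w n ^ (-t))
    (V : Submodule ℝ (ι → ℝ)) (hV : ∀ u : J → ℝ, ∃ v ∈ V, ∀ j, v (f j) = u j)
    (hJ : s + τ < (1 - κ) * Fintype.card J) :
    ∀ᵐ v : V ∂(Measure.addHaar : Measure V), ¬ HitI B κ w (fun j => (v : ι → ℝ) (f j)) := by
  have hκ' : 0 < 1 - κ := by linarith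
  obtain ⟨L, hL⟩ : ∃ L : V →ₗ[ℝ] (J → ℝ), L = (LinearMap.funLeft ℝ ℝ f).comp V.subtype := ⟨_, rfl⟩
  have hL1 : ∀ v : V, L v = fun j => (v : ι → ℝ) (f j) := by
    intro v
    rw [hL]
    rfl
  have hsurj : Function.Surjective L := by
    intro u
    obtain ⟨v, hv, h⟩ := hV u
    refine ⟨⟨v, hv⟩, ?_⟩
    rw [hL1]
    exact funext h
  have hN : (volume : Measure (J → ℝ)) {u | HitI B κ w u} = 0 := by
    refine null_of_dim (D := (s + τ) / (1 - κ)) _ (dim_hit B hs hB hκ hτ w hw hsum)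
      (div_nonneg (by linarith) hκ'.le) ?_
    rw [Module.finrank_fintype_fun_eq_card, div_lt_iff₀ hκ']
    linarith
  have h1 := ae_comp_linearMap_mem_iff (L := L) (μ := (Measure.addHaar : Measure V)) (ν := (volume : Measure (J → ℝ)))
    hsurj (s := (toMeasurable volume {u | HitI B κ w u})ᶜ) (measurableSet_toMeasurable _ _).compl
  have h2 : ∀ᵐ y : J → ℝ, y ∈ (toMeasurable volume {u | HitI B κ w u})ᶜ := by
    rw [ae_iff]
    simp only [Set.mem_compl_iff, not_not]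
    rw [Set.setOf_mem_eq, measure_toMeasurable]
    exact hN
  filter_upwards [h1.2 h2] with v hv h
  refine hv (subset_toMeasurable _ _ ?_)
  rw [Set.mem_ofPred_eq, hL1]
  exact h

end Pool.Agent.U265.SG
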