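import Pool.Agent.U265.SG.Pts

/-!
# Integral polynomials which vanish at given integer points, near real ones (helper265)
-/

set_option autoImplicit false

namespace Pool.Agent.U265.SG

open Finset Polynomial Filter Topology Pool.Agent.R414.DN

variable {d : ℕ}

/-- the value of a monomial -/
def mon (P : ℤ × ℤ) (p : ↥(I d)) : ℤ := P.1 ^ p.1.2 * P.2 ^ (p.1.1 - p.1.2)

/-- the value of a polynomial -/
def FZ (a : Cf d) (P : ℤ × ℤ) : ℤ := ∑ p : ↥(I d), a p * mon P p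

lemma eval_FZ (a : Cf d) (P : ℤ × ℤ) : MvPolynomial.eval ![P.1, P.2] (poly a) = FZ a P := by
  rw [eval_poly]
  unfold Fv FZ mon
  rw [← sum_I fun k i => co a k i * (P.1 ^ i * P.2 ^ (k - i))]
  exact sum_congr rfl fun p _ => by rw [co_of_mem a p.2]

lemma exists_dual {S : Finset (ℤ × ℤ)} (hS : S.card ≤ d) : ∃ (D : ℤ) (q : ℤ × ℤ → Cf d), D ≠ 0 ∧
    ∀ P ∈ S, ∀ P' ∈ S, FZ (q P) P' = if P = P' then D else 0 := by
  classical
  obtain ⟨c, hc⟩ := exists_sep S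
  obtain ⟨nd, hnd⟩ : ∃ nd : ℤ × ℤ → ℚ, nd = fun P => (P.1 : ℚ) + c * P.2 := ⟨_, rfl⟩
  have hinj : Set.InjOn nd (S : Set (ℤ × ℤ)) := by
    intro P hP P' hP' h
    rw [hnd] at h
    simp only at h
    exact hc P hP P' hP' (by exact_mod_cast h)
  obtain ⟨f, hf⟩ : ∃ f : (ℤ × ℤ) × ↥(I d) → ℚ, f = fun z => (Lagrange.basis S nd z.1).coeff z.2.1.1 *
    (((z.2.1.1.choose z.2.1.2 : ℕ) : ℚ) * (c : ℚ) ^ (z.2.1.1 - z.2.1.2)) := ⟨_, rfl⟩
  obtain ⟨b, hb⟩ := IsLocalization.exist_integer_multiples (nonZeroDivisors ℤ)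
    (S ×ˢ (univ : Finset ↥(I d))) f
  have hq : ∀ P : ℤ × ℤ, ∀ p : ↥(I d), ∃ n : ℤ, P ∈ S → (n : ℚ) = (b : ℤ) * f (P, p) := by
    intro P p
    by_cases hP : P ∈ S
    · obtain ⟨n, hn⟩ := hb (P, p) (mem_product.2 ⟨hP, mem_univ _⟩)
      refine ⟨n, fun _ => ?_⟩
      simpa [Algebra.smul_def] using hn
    · exact ⟨0, fun h => absurd h hP⟩
  choose q hq using hq
  refine ⟨b, q, nonZeroDivisors.coe_ne_zero b, fun P hP P' hP' => ?_⟩
  have hdeg : (Lagrange.basis S nd P).natDegree < d + 1 := by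
    rw [Lagrange.natDegree_basis hinj hP]
    omega
  have h1 : ((FZ (q P) P' : ℤ) : ℚ) = (b : ℤ) * (Lagrange.basis S nd P).eval (nd P') := by
    unfold FZ mon
    push_cast
    have h2 : ∀ p : ↥(I d), (q P p : ℚ) * ((P'.1 : ℚ) ^ p.1.2 * (P'.2 : ℚ) ^ (p.1.1 - p.1.2)) =
        (b : ℤ) * ((Lagrange.basis S nd P).coeff p.1.1 * (((p.1.1.choose p.1.2 : ℕ) : ℚ) *
          (c : ℚ) ^ (p.1.1 - p.1.2)) * ((P'.1 : ℚ) ^ p.1.2 * (P'.2 : ℚ) ^ (p.1.1 - p.1.2))) := by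
      intro p
      rw [hq P p hP, hf]
      ring
    rw [sum_congr rfl fun p _ => h2 p, ← mul_sum]
    congr 1
    rw [sum_I (fun k i => (Lagrange.basis S nd P).coeff k * (((k.choose i : ℕ) : ℚ) * (c : ℚ) ^ (k - i)) *
      ((P'.1 : ℚ) ^ i * (P'.2 : ℚ) ^ (k - i))), eval_eq_sum_range' hdeg]
    refine sum_congr rfl fun k _ => ?_
    rw [hnd]
    simp only
    rw [add_pow, mul_sum]
    refine sum_congr rfl fun i _ => ?_
    rw [mul_pow]
    ring
  split_ifs with h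
  · subst h
    rw [Lagrange.eval_basis_self hinj hP, mul_one] at h1
    exact_mod_cast h1
  · rw [Lagrange.eval_basis_of_ne h hP', mul_zero] at h1
    exact_mod_cast h1

theorem exists_near {S : Finset (ℤ × ℤ)} (hS : S.card ≤ d) : ∃ C : ℝ, ∀ v ∈ through d S, ∀ W : ℝ,
    ∃ a : Cf d, (∀ P ∈ S, FZ a P = 0) ∧ ∀ p, |(a p : ℝ) - W * v p| ≤ C := by
  classical
  obtain ⟨D, q, hD, hq⟩ := exists_dual hS
  have hD' : (D : ℝ) ≠ 0 := by exact_mod_cast hD
  refine ⟨|(D : ℝ)| + ∑ p : ↥(I d), ∑ P ∈ S, (∑ p' : ↥(I d), |(mon P p' : ℝ)|) * |(q P p : ℝ)|, fun v hv W => ?_⟩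
  obtain ⟨b, hb⟩ : ∃ b : Cf d, b = fun p => round (W * v p / D) := ⟨_, rfl⟩
  have hb1 : ∀ p, |(b p : ℝ) - W * v p / D| ≤ 1 := by
    intro p
    rw [hb, abs_sub_comm]
    exact (abs_sub_round _).trans (by norm_num)
  have hb2 : ∀ P ∈ S, |(FZ b P : ℝ)| ≤ ∑ p' : ↥(I d), |(mon P p' : ℝ)| := by
    intro P hP
    have h1 : (FZ b P : ℝ) = ∑ p : ↥(I d), ((b p : ℝ) - W * v p / D) * (mon P p : ℝ) := by
      have h2 : ∑ p : ↥(I d), W * v p / D * (mon P p : ℝ) = 0 := by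
        have h3 := hv P hP
        have h4 : ∀ p : ↥(I d), W * v p / D * (mon P p : ℝ) =
            W / D * (v p * ((P.1 : ℝ) ^ p.1.2 * (P.2 : ℝ) ^ (p.1.1 - p.1.2))) := by
          intro p
          unfold mon
          push_cast
          ring
        rw [sum_congr rfl fun p _ => h4 p, ← mul_sum, h3, mul_zero]
      simp only [sub_mul, sum_sub_distrib]
      rw [h2, sub_zero]
      unfold FZ
      push_cast
      rfl
    rw [h1]
    refine (abs_sum_le_sum_abs _ _).trans (sum_le_sum fun p _ => ?_)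
    rw [abs_mul]
    exact mul_le_of_le_one_left (abs_nonneg _) (hb1 p)
  refine ⟨fun p => D * b p - ∑ P ∈ S, FZ b P * q P p, fun P' hP' => ?_, fun p => ?_⟩
  · have h1 : FZ (fun p => D * b p - ∑ P ∈ S, FZ b P * q P p) P' = D * FZ b P' - ∑ P ∈ S, FZ b P * FZ (q P) P' := by
      unfold FZ
      simp only [sub_mul, sum_sub_distrib, mul_sum, sum_mul]
      congr 1
      · exact sum_congr rfl fun p _ => by ring
      · rw [sum_comm]
        refine sum_congr rfl fun P _ => sum_congr rfl fun p _ => ?_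
        refine sum_congr rfl fun p' _ => ?_
        ring
    rw [h1, sum_congr rfl fun P hP => by rw [hq P hP P' hP'], sum_eq_single_of_mem P' hP']
    · rw [if_pos rfl]
      ring
    · intro P _ hne
      rw [if_neg hne, mul_zero]
  · push_cast
    have h1 : (D : ℝ) * (b p : ℝ) - ∑ P ∈ S, (FZ b P : ℝ) * (q P p : ℝ) - W * v p =
        D * ((b p : ℝ) - W * v p / D) - ∑ P ∈ S, (FZ b P : ℝ) * (q P p : ℝ) := by
      field_simp
      ring
    rw [h1]
    refine (abs_sub _ _).trans (add_le_add ?_ ?_)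
    · rw [abs_mul]
      exact mul_le_of_le_one_right (abs_nonneg _) (hb1 p)
    · refine (abs_sum_le_sum_abs _ _).trans ?_
      have h2 : ∑ P ∈ S, |(FZ b P : ℝ) * (q P p : ℝ)| ≤ ∑ P ∈ S, (∑ p' : ↥(I d), |(mon P p' : ℝ)|) * |(q P p : ℝ)| := by
        refine sum_le_sum fun P hP => ?_
        rw [abs_mul]
        exact mul_le_mul_of_nonneg_right (hb2 P hP) (abs_nonneg _)
      refine h2.trans ?_
      exact single_le_sum (f := fun p : ↥(I d) => ∑ P ∈ S, (∑ p' : ↥(I d), |(mon P p' : ℝ)|) * |(q P p : ℝ)|)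
        (fun p _ => sum_nonneg fun P _ => mul_nonneg (sum_nonneg fun _ _ => abs_nonneg _) (abs_nonneg _)) (mem_univ p)

lemma eventually_ge {w : ℕ → ℝ} (hw : ∀ m, 1 ≤ w m) {t : ℝ} (ht : 0 < t) (hsum : Summable fun m => w m ^ (-t)) {κ : ℝ}
    (hκ : 0 < κ) (C : ℝ) : ∀ᶠ m : ℕ in atTop, C ≤ w m ^ κ := by
  have hC : 0 < max C 1 := lt_of_lt_of_le one_pos (le_max_right _ _)
  obtain ⟨K, hK⟩ : ∃ K : ℝ, K = (max C 1) ^ (1 / κ) := ⟨_, rfl⟩
  have hK0 : 0 < K := by rw [hK]; exact Real.rpow_pos_of_pos hC _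
  have h1 := hsum.tendsto_atTop_zero
  have h2 : 0 < K ^ (-t) := Real.rpow_pos_of_pos hK0 _
  filter_upwards [h1.eventually (gt_mem_nhds h2)] with m hm
  have h3 : K ≤ w m := by
    by_contra h
    push Not at h
    have h4 := Real.rpow_lt_rpow_of_neg (lt_of_lt_of_le one_pos (hw m)) h (by linarith : -t < 0)
    linarith
  calc C ≤ max C 1 := le_max_left _ _
    _ = K ^ κ := by rw [hK, ← Real.rpow_mul hC.le, one_div_mul_cancel hκ.ne', Real.rpow_one]
    _ ≤ w m ^ κ := Real.rpow_le_rpow hK0.le h3 hκ.le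

end Pool.Agent.U265.SG
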