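import Pool.Agent.U265.SG.Cnt

/-!
# The real plane curves through given integer points (helper265)
-/

set_option autoImplicit false

namespace Pool.Agent.U265.SG

open Finset Polynomial Pool.Agent.R414.DN

variable {d : ℕ}

/-- The space of the coefficient vectors `v` of the real polynomials `∑ v_(k,i) x ^ i y ^ (k - i)` of degree at most `d` which
vanish at all the points of `S`. -/
def through (d : ℕ) (S : Finset (ℤ × ℤ)) : Submodule ℝ (↥(I d) → ℝ) where
  carrier := {v | ∀ P ∈ S, ∑ p : ↥(I d), v p * ((P.1 : ℝ) ^ p.1.2 * (P.2 : ℝ) ^ (p.1.1 - p.1.2)) = 0}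
  add_mem' := by
    intro v v' h h' P hP
    simp only [Pi.add_apply, add_mul, sum_add_distrib]
    rw [h P hP, h' P hP, add_zero]
  zero_mem' := by
    intro P _
    simp
  smul_mem' := by
    intro c v h P hP
    simp only [Pi.smul_apply, smul_eq_mul, mul_assoc]
    rw [← mul_sum, h P hP, mul_zero]

lemma finrank_through (d : ℕ) (S : Finset (ℤ × ℤ)) :
    MM d ≤ Module.finrank ℝ (through d S) + S.card := by
  classical
  obtain ⟨Φ, hΦ⟩ : ∃ Φ : (↥(I d) → ℝ) →ₗ[ℝ] (↥S → ℝ), ∀ v P, Φ v P =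
      ∑ p : ↥(I d), v p * ((P.1.1 : ℝ) ^ p.1.2 * (P.1.2 : ℝ) ^ (p.1.1 - p.1.2)) :=
    ⟨{ toFun := fun v P => ∑ p : ↥(I d), v p * ((P.1.1 : ℝ) ^ p.1.2 * (P.1.2 : ℝ) ^ (p.1.1 - p.1.2))
       map_add' := by
        intro v v'
        funext P
        simp only [Pi.add_apply, add_mul, sum_add_distrib]
       map_smul' := by
        intro c v
        funext P
        simp only [Pi.smul_apply, smul_eq_mul, mul_assoc, mul_sum, RingHom.id_apply] }, fun _ _ => rfl⟩
  have h1 : LinearMap.ker Φ = through d S := by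
    ext v
    rw [LinearMap.mem_ker]
    constructor
    · intro h P hP
      have h2 := congrFun h ⟨P, hP⟩
      rw [hΦ] at h2
      exact h2
    · intro h
      funext P
      rw [hΦ]
      exact h P.1 P.2
  have h2 := LinearMap.finrank_range_add_finrank_ker Φ
  rw [h1, Module.finrank_fintype_fun_eq_card] at h2
  have h3 := Submodule.finrank_le (LinearMap.range Φ)
  rw [Module.finrank_fintype_fun_eq_card, Fintype.card_coe] at h3
  have h4 : MM d = Fintype.card ↥(I d) := rfl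
  omega

lemma exists_sep (S : Finset (ℤ × ℤ)) : ∃ c : ℤ, ∀ P ∈ S, ∀ P' ∈ S, P.1 + c * P.2 = P'.1 + c * P'.2 → P = P' := by
  refine ⟨2 * ∑ P ∈ S, |P.1| + 1, fun P hP P' hP' h => ?_⟩
  obtain ⟨s, hs⟩ : ∃ s, s = ∑ P ∈ S, |P.1| := ⟨_, rfl⟩
  rw [← hs] at h
  have h1 : |P.1| ≤ s := by
    rw [hs]
    exact single_le_sum (f := fun P : ℤ × ℤ => |P.1|) (fun _ _ => abs_nonneg _) hP
  have h2 : |P'.1| ≤ s := by
    rw [hs]
    exact single_le_sum (f := fun P : ℤ × ℤ => |P.1|) (fun _ _ => abs_nonneg _) hP'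
  have h3 : P.1 - P'.1 = (2 * s + 1) * (P'.2 - P.2) := by linarith
  have h0 : 0 ≤ s := (abs_nonneg _).trans h1
  have h4 : P'.2 - P.2 = 0 := by
    by_contra hne
    have h5 : 1 ≤ |P'.2 - P.2| := Int.one_le_abs hne
    have h6 : |P.1 - P'.1| ≤ 2 * s := by
      refine (abs_sub _ _).trans ?_
      linarith
    rw [h3, abs_mul, abs_of_pos (by linarith : (0 : ℤ) < 2 * s + 1)] at h6
    nlinarith
  have h5 : P.1 = P'.1 := by
    rw [h4, mul_zero] at h3
    linarith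
  exact Prod.ext h5 (by linarith)

/-- there are real curves through the points of `S` with arbitrary three leading forms -/
lemma exists_through {S : Finset (ℤ × ℤ)} (hS : S.card + 2 ≤ d) (u : J d → ℝ) :
    ∃ v ∈ through d S, ∀ j, v j.1 = u j := by
  classical
  obtain ⟨c, hc⟩ := exists_sep S
  obtain ⟨v0, hv0⟩ : ∃ v0 : ↥(I d) → ℝ, v0 = fun p => if h : d < p.1.1 + 3 then u ⟨p, h⟩ else 0 := ⟨_, rfl⟩
  obtain ⟨g, hg⟩ : ∃ g : ℤ × ℤ → ℝ, g = fun P => ∑ p : ↥(I d), v0 p * ((P.1 : ℝ) ^ p.1.2 *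
    (P.2 : ℝ) ^ (p.1.1 - p.1.2)) := ⟨_, rfl⟩
  obtain ⟨nd, hnd⟩ : ∃ nd : ℤ × ℤ → ℝ, nd = fun P => (P.1 : ℝ) + c * P.2 := ⟨_, rfl⟩
  have hinj : Set.InjOn nd (S : Set (ℤ × ℤ)) := by
    intro P hP P' hP' h
    rw [hnd] at h
    simp only at h
    exact hc P hP P' hP' (by exact_mod_cast h)
  obtain ⟨Q, hQ⟩ : ∃ Q : ℝ[X], Q = Lagrange.interpolate S nd (fun P => - g P) := ⟨_, rfl⟩
  have hQd : Q.degree < S.card := by
    rw [hQ]
    exact Lagrange.degree_interpolate_lt _ hinj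
  have hQe : ∀ P ∈ S, Q.eval (nd P) = - g P := by
    intro P hP
    rw [hQ]
    exact Lagrange.eval_interpolate_at_node _ hinj hP
  have hQ0 : ∀ k, S.card ≤ k → Q.coeff k = 0 := by
    intro k hk
    exact coeff_eq_zero_of_degree_lt (lt_of_lt_of_le hQd (by exact_mod_cast hk))
  have hQn : Q.natDegree < d + 1 := by
    by_contra h
    push Not at h
    have h1 := hQ0 Q.natDegree (by omega)
    have h2 : Q = 0 := leadingCoeff_eq_zero.1 h1
    rw [h2, natDegree_zero] at h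
    omega
  refine ⟨fun p => v0 p + Q.coeff p.1.1 * (((p.1.1.choose p.1.2 : ℕ) : ℝ) * (c : ℝ) ^ (p.1.1 - p.1.2)), ?_, ?_⟩
  · intro P hP
    simp only [add_mul, sum_add_distrib]
    have h1 : ∑ p : ↥(I d), v0 p * ((P.1 : ℝ) ^ p.1.2 * (P.2 : ℝ) ^ (p.1.1 - p.1.2)) = g P := by rw [hg]
    rw [h1]
    have h2 : ∑ p : ↥(I d), Q.coeff p.1.1 * (((p.1.1.choose p.1.2 : ℕ) : ℝ) * (c : ℝ) ^ (p.1.1 - p.1.2)) *
        ((P.1 : ℝ) ^ p.1.2 * (P.2 : ℝ) ^ (p.1.1 - p.1.2)) = Q.eval (nd P) := by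
      rw [sum_I (fun k i => Q.coeff k * (((k.choose i : ℕ) : ℝ) * (c : ℝ) ^ (k - i)) *
        ((P.1 : ℝ) ^ i * (P.2 : ℝ) ^ (k - i))), eval_eq_sum_range' hQn]
      refine sum_congr rfl fun k _ => ?_
      rw [hnd]
      simp only
      rw [add_pow, mul_sum]
      refine sum_congr rfl fun i _ => ?_
      rw [mul_pow]
      ring
    rw [h2, hQe P hP, add_neg_cancel]
  · intro j
    have h1 : v0 j.1 = u j := by
      rw [hv0]
      simp only
      rw [dif_pos j.2]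
    have h2 : Q.coeff j.1.1.1 = 0 := hQ0 _ (by have := j.2; omega)
    simp only
    rw [h1, h2, zero_mul, add_zero]

end Pool.Agent.U265.SG
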